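import Pool.Agent.X312.FN.Zero

/-!
# A gap law for `K_i(Y × X ^ n)` and for all additive functors on Chow motives

Let `X` be a smooth projective variety over the algebraic closure `k` of a finite field, such that
the numerically trivial self-correspondences of its powers are nilpotent (by Kimura this holds if
the Chow motive of `X` is finite-dimensional, for example for products of curves and for abelian
varieties) and such that homological and numerical equivalence agree on its powers for one Weil
cohomology theory (known for abelian varieties and products of curves and suitable `ℓ` by Clozel).
Let `ρ(Z)` be the rank of the cycles of all codimensions on `Z` modulo numerical equivalence, and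
`b` the sum of the Betti numbers of `X`. Then for **every additive functor** `T` from the category
of Chow motives over `k` (correspondences of all degrees, rational coefficients) to rational
vector spaces and all `m ≥ 1`:

`T(X ^ m) = 0`, **or** `dim T(X ^ n) ≥ (1 - 4 (m + 3) b ^ (m + 5) log (n + 1) / n) ρ(X ^ n)` **for
all** `n ≥ 1`.

In particular this holds for `T(Z) = K_i(Y × Z) ⊗ ℚ`, where `i ≥ 1` and `Y` is **any** smooth
projective variety over `k` (the correspondences act on rational `K`-theory by the Riemann-Roch
theorem). Parshin's conjecture says that these groups vanish (the conjecture over finite fields is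
equivalent to the conjecture over `k`, by transfers). So one element of infinite order in `K_i(Y ×
X ^ m)` forces almost `ρ(X ^ n)` independent elements of infinite order in `K_i(Y × X ^ n)` for
all `n`; and the conjecture for all the varieties `Y × X ^ m` is equivalent to the statement that
for each `m` the rank of `K_i(Y × X ^ n)` is smaller than `(1 - ε_n) ρ(X ^ n)` for one `n`, where
`ε_n = 4 (m + 3) b ^ (m + 5) log (n + 1) / n` tends to zero.

The proof. Modulo numerical equivalence the self-correspondences of `P = X ^ m` form a
finite-dimensional algebra, and the numerically trivial ones are nilpotent, so that idempotents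
can be lifted. If the functor `T` does not vanish on `P`, one takes an idempotent correspondence
`g` on `P` of minimal rank with `g T(P) ≠ 0` and an element `z ≠ 0` of `g T(P)`. The
correspondences `x` with `x z = 0` have a nilpotent compression `g x g`, so the trace of `g x`
vanishes, and so `dim T(Z)` is at least the rank of the trace form `(u, v) ↦ tr (g v u)` on the
correspondences between `P` and `Z`; for `Z = X ^ n` this rank is compared with `ρ(X ^ n)` by the
log-convexity of the sequence of the ranks of the intersection forms and by the symmetric group.
-/

set_option autoImplicit false

open CategoryTheory AlgebraicGeometry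

universe u v w

namespace Pool.Agent.Results.MP_27fd67_ag.FunctorGapLaw

open Pool.Agent.H914 VarClass Obj WeilCohomology
open Pool.Agent.X312.FN (CorrCat CorrFunctor DimAtLeast gapBound)
open Pool.Agent.Y133.Half (pw cycRank)

variable {k : Type u} [Field k] {𝒱 : VarClass k} {ops : CycleOps 𝒱}
  {W : WeilCohomology.{u, v} ops}

/-- The sum of the Betti numbers of `X`. -/
noncomputable def totalBetti (W : WeilCohomology.{u, v} ops) (X : 𝒱.Obj) : ℕ :=
  Module.finrank W.K (W.H X)

/-- **The gap law for additive functors.** Here `C` is the category of Chow correspondences with
coefficients in `F` (in the intended use `F = ℚ`), `T` is an additive functor, for example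
`Z ↦ K_i(Y × Z) ⊗ ℚ`, and `pw X m` is the product of `m + 1` copies of `X`. -/
theorem result {F : Type w} [Field F] {σ : F →+* W.K} (C : CorrCat W σ) (hC : C.IsLawful)
    (T : CorrFunctor C) (X : 𝒱.Obj) (hX : ∀ n : ℕ, C.NumNil (pw X n))
    (hD : ∀ n : ℕ, HomEqNum W (pw X n)) (m : ℕ) :
    (∀ x : T.M (pw X m), x = 0) ∨
    ∀ n : ℕ, DimAtLeast F (T.M (pw X n))
      (gapBound (totalBetti W X) (cycRank ops (pw X n)) m n) := by
  rcases Pool.Agent.X312.FN.zero_law hC T X hX hD m with h | h
  · exact Or.inl h
  · exact Or.inr h

end Pool.Agent.Results.MP_27fd67_ag.FunctorGapLaw
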